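import Pool.Agent.Q62.SP.Stm

/-!
Project SP: the operator `BB N` on `L²` (jobs 23 and 24).
-/

set_option autoImplicit false

open MeasureTheory Set Filter Topology
open scoped ContDiff
open H459R3.NS (V pd Per cube)

namespace Pool.Agent.Q208.SP

open Pool.Agent.Q62.SP

noncomputable section

/-- Square integrable on the cube. -/
def M2 (f : V → V) : Prop := ∀ i, MemLp (fun x => f x i) 2 (volume.restrict cube)

lemma fin_cube : IsFiniteMeasure (volume.restrict cube : Measure V) :=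
  ⟨by rw [Measure.restrict_apply_univ]; exact isCompact_Icc.measure_lt_top⟩

lemma ip_comm (f g : V → V) : ip f g = ip g f := by
  unfold ip
  congr 1
  ext x
  exact Finset.sum_congr rfl fun i _ => mul_comm _ _

lemma int_comp {f g : V → V} (hf : M2 f) (hg : M2 g) (i : Fin 3) :
    Integrable (fun x => f x i * g x i) (volume.restrict cube) :=
  (hf i).integrable_mul (hg i)

lemma int_mul {f g : V → V} (hf : M2 f) (hg : M2 g) :
    Integrable (fun x => ∑ i, f x i * g x i) (volume.restrict cube) :=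
  integrable_finsetSum _ fun i _ => int_comp hf hg i

lemma ip_eq_sum {f g : V → V} (hf : M2 f) (hg : M2 g) :
    ip f g = ∑ i, ∫ x in cube, f x i * g x i :=
  integral_finsetSum _ fun i _ => int_comp hf hg i

lemma M2.add {f g : V → V} (hf : M2 f) (hg : M2 g) : M2 (fun x => f x + g x) :=
  fun i => (hf i).add (hg i)

lemma M2.sub {f g : V → V} (hf : M2 f) (hg : M2 g) : M2 (fun x => f x - g x) :=
  fun i => (hf i).sub (hg i)

lemma M2.smul {f : V → V} (hf : M2 f) (c : ℝ) : M2 (fun x => c • f x) :=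
  fun i => (hf i).const_mul c

lemma add_ip {f g h : V → V} (hf : M2 f) (hg : M2 g) (hh : M2 h) :
    ip (fun x => f x + g x) h = ip f h + ip g h := by
  unfold ip
  rw [← integral_add (int_mul hf hh) (int_mul hg hh)]
  congr 1
  ext x
  rw [← Finset.sum_add_distrib]
  refine Finset.sum_congr rfl fun i _ => ?_
  show (f x i + g x i) * h x i = _
  ring

lemma smul_ip (c : ℝ) (f h : V → V) : ip (fun x => c • f x) h = c * ip f h := by
  unfold ip
  rw [← integral_const_mul]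
  congr 1
  ext x
  rw [Finset.mul_sum]
  refine Finset.sum_congr rfl fun i _ => ?_
  show c * f x i * h x i = _
  ring

lemma ip_nonneg (f : V → V) : 0 ≤ ip f f :=
  integral_nonneg fun _ => Finset.sum_nonneg fun _ _ => mul_self_nonneg _

/-- Cauchy-Schwarz. -/
lemma cs {f g : V → V} (hf : M2 f) (hg : M2 g) : ip f g ^ 2 ≤ ip f f * ip g g := by
  have h : ∀ t : ℝ, 0 ≤ ip g g * (t * t) + (2 * ip f g) * t + ip f f := by
    intro t
    have h1 := ip_nonneg (fun x => f x + t • g x)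
    have ht := hg.smul t
    have h2 : ip (fun x => f x + t • g x) (fun x => f x + t • g x)
        = ip g g * (t * t) + (2 * ip f g) * t + ip f f := by
      rw [add_ip hf ht (hf.add ht), ip_comm f, ip_comm (fun x => t • g x), add_ip hf ht hf,
        add_ip hf ht ht, smul_ip, smul_ip, ip_comm f (fun x => t • g x), smul_ip,
        ip_comm g (fun x => t • g x), smul_ip, ip_comm g f]
      ring
    rwa [h2] at h1
  have h3 := discrim_le_zero h
  unfold discrim at h3
  nlinarith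

lemma comp_le {g : V → V} (hg : M2 g) (i : Fin 3) : ∫ x in cube, g x i ^ 2 ≤ ip g g := by
  refine integral_mono ?_ (int_mul hg hg) fun x => ?_
  · exact (hg i).integrable_sq
  · have : g x i ^ 2 = g x i * g x i := pow_two _
    show g x i ^ 2 ≤ ∑ j, g x j * g x j
    rw [this]
    exact Finset.single_le_sum (f := fun j => g x j * g x j) (fun j _ => mul_self_nonneg _)
      (Finset.mem_univ i)

/-- Series of functions, without positivity of the bounds. -/
lemma ser (hMIN : S_MIN) (g : ℕ → V → ℝ) (a : ℕ → ℝ) (M : ℝ) (hM : 0 ≤ M) (ha : ∀ n, 0 < a n)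
    (hs : Summable a) (hg : ∀ n, MemLp (g n) 2 (volume.restrict cube))
    (hb : ∀ n, ∫ x in cube, g n x ^ 2 ≤ (M * a n) ^ 2) :
    MemLp (fun x => ∑' n, g n x) 2 (volume.restrict cube) ∧
      ∫ x in cube, (∑' n, g n x) ^ 2 ≤ (M * ∑' n, a n) ^ 2 ∧
      ∀ k : V → ℝ, MemLp k 2 (volume.restrict cube) →
        Summable (fun n => ∫ x in cube, k x * g n x) ∧
        ∫ x in cube, k x * (∑' n, g n x) = ∑' n, ∫ x in cube, k x * g n x := by
  have := fin_cube
  have key : ∀ ε : ℝ, 0 < ε → _ := fun ε hε =>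
    hMIN (volume.restrict cube) g (fun n => (M + ε) * a n) (fun n => mul_pos (by linarith) (ha n))
      (hs.mul_left _) hg (fun n => (hb n).trans (by
        have h1 : M * a n ≤ (M + ε) * a n := mul_le_mul_of_nonneg_right (by linarith) (ha n).le
        have h2 : 0 ≤ M * a n := mul_nonneg hM (ha n).le
        exact pow_le_pow_left₀ h2 h1 2))
  refine ⟨(key 1 one_pos).2.1, ?_, (key 1 one_pos).2.2.2⟩
  have h1 : Tendsto (fun ε : ℝ => ((M + ε) * ∑' n, a n) ^ 2) (𝓝[>] 0)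
      (𝓝 (((M + 0) * ∑' n, a n) ^ 2)) := by
    apply tendsto_nhdsWithin_of_tendsto_nhds
    have : Continuous (fun ε : ℝ => ((M + ε) * ∑' n, a n) ^ 2) := by fun_prop
    exact this.tendsto 0
  rw [add_zero] at h1
  refine ge_of_tendsto h1 ?_
  filter_upwards [self_mem_nhdsWithin] with ε hε
  have h2 := (key ε hε).2.2.1
  rwa [tsum_mul_left] at h2

/-- The general estimate for series like `BB N f`. -/
theorem gen (hMIN : S_MIN) {N K M : ℝ} (hN : 0 ≤ N) (hM : 0 ≤ M) (p q : ℕ → ℝ)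
    (D E : ℕ → V → V) (w : ℕ → ℝ) (hw : ∀ n, 0 < w n)
    (hs : Summable (fun n : ℕ => ((n : ℝ) + 1) ^ 2 / 2 ^ n * w n))
    (hD : ∀ n, M2 (D n)) (hE : ∀ n, M2 (E n))
    (hp : ∀ n, p n ^ 2 ≤ M ^ 2 * (K ^ 2 / 4 ^ n)) (hq : ∀ n, q n ^ 2 ≤ M ^ 2 * (K ^ 2 / 16 ^ n))
    (hDD : ∀ n, ip (D n) (D n) ≤ K ^ 2 / 16 ^ n * w n ^ 2)
    (hEE : ∀ n, ip (E n) (E n) ≤ K ^ 2 / 4 ^ n * w n ^ 2) :
    M2 (fun x i => ∑' n, ka N n * (p n * D n x i + q n * E n x i)) ∧
    ip (fun x i => ∑' n, ka N n * (p n * D n x i + q n * E n x i))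
      (fun x i => ∑' n, ka N n * (p n * D n x i + q n * E n x i))
      ≤ 3 * (M * ((2 * N * K ^ 2 / |ca| + 1) * ∑' n : ℕ, ((n : ℝ) + 1) ^ 2 / 2 ^ n * w n)) ^ 2 ∧
    ∀ g, M2 g → ip g (fun x i => ∑' n, ka N n * (p n * D n x i + q n * E n x i))
      = ∑' n, ka N n * (p n * ip g (D n) + q n * ip g (E n)) := by
  have := fin_cube
  set c0 : ℝ := 2 * N * K ^ 2 / |ca| with hc0
  have hc0n : 0 ≤ c0 := by positivity
  have hMT : ∀ n i, MemLp (fun x => ka N n * (p n * D n x i + q n * E n x i)) 2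
      (volume.restrict cube) := fun n i =>
    (((hD n i).const_mul (p n)).add ((hE n i).const_mul (q n))).const_mul (ka N n)
  have hbd : ∀ n i, ∫ x in cube, (ka N n * (p n * D n x i + q n * E n x i)) ^ 2
      ≤ (M * ((c0 + 1) * (((n : ℝ) + 1) ^ 2 / 2 ^ n * w n))) ^ 2 := by
    intro n i
    have hiD : Integrable (fun x => D n x i ^ 2) (volume.restrict cube) := (hD n i).integrable_sq
    have hiE : Integrable (fun x => E n x i ^ 2) (volume.restrict cube) := (hE n i).integrable_sq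
    have h1 : ∫ x in cube, (ka N n * (p n * D n x i + q n * E n x i)) ^ 2
        ≤ ∫ x in cube, (2 * ka N n ^ 2 * p n ^ 2 * D n x i ^ 2
          + 2 * ka N n ^ 2 * q n ^ 2 * E n x i ^ 2) := by
      refine integral_mono (hMT n i).integrable_sq
        ((hiD.const_mul _).add (hiE.const_mul _)) fun x => ?_
      show (ka N n * (p n * D n x i + q n * E n x i)) ^ 2
        ≤ 2 * ka N n ^ 2 * p n ^ 2 * D n x i ^ 2 + 2 * ka N n ^ 2 * q n ^ 2 * E n x i ^ 2
      nlinarith [sq_nonneg (ka N n * (p n * D n x i - q n * E n x i))]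
    rw [integral_add (hiD.const_mul _) (hiE.const_mul _), integral_const_mul,
      integral_const_mul] at h1
    have h2 := (comp_le (hD n) i).trans (hDD n)
    have h3 := (comp_le (hE n) i).trans (hEE n)
    have h4 : ∫ x in cube, (ka N n * (p n * D n x i + q n * E n x i)) ^ 2
        ≤ 2 * ka N n ^ 2 * (M ^ 2 * (K ^ 2 / 4 ^ n)) * (K ^ 2 / 16 ^ n * w n ^ 2)
          + 2 * ka N n ^ 2 * (M ^ 2 * (K ^ 2 / 16 ^ n)) * (K ^ 2 / 4 ^ n * w n ^ 2) := by
      refine h1.trans (add_le_add ?_ ?_)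
      · refine mul_le_mul ?_ h2 (integral_nonneg fun x => sq_nonneg _) (by positivity)
        exact mul_le_mul_of_nonneg_left (hp n) (by positivity)
      · refine mul_le_mul ?_ h3 (integral_nonneg fun x => sq_nonneg _) (by positivity)
        exact mul_le_mul_of_nonneg_left (hq n) (by positivity)
    have h5 : 2 * ka N n ^ 2 * (M ^ 2 * (K ^ 2 / 4 ^ n)) * (K ^ 2 / 16 ^ n * w n ^ 2)
          + 2 * ka N n ^ 2 * (M ^ 2 * (K ^ 2 / 16 ^ n)) * (K ^ 2 / 4 ^ n * w n ^ 2)
        = (M * (c0 * (((n : ℝ) + 1) ^ 2 / 2 ^ n * w n))) ^ 2 := by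
      have e1 : (16 : ℝ) ^ n = (2 ^ n) ^ 4 := by
        rw [← pow_mul, mul_comm, pow_mul]; norm_num
      have e2 : (4 : ℝ) ^ n = (2 ^ n) ^ 2 := by
        rw [← pow_mul, mul_comm, pow_mul]; norm_num
      have e3 : ka N n ^ 2 = N ^ 2 * ((n : ℝ) + 1) ^ 4 * (4 ^ n) ^ 2 / |ca| ^ 2 := by
        unfold ka
        rw [sq_abs]
        ring
      rw [e3, hc0, e1, e2]
      have h2n : (0 : ℝ) < 2 ^ n := by positivity
      rcases eq_or_ne (|ca|) 0 with h0 | h0
      · rw [h0]; simp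
      · field_simp
        ring
    rw [h5] at h4
    refine h4.trans ?_
    have hpos : 0 ≤ ((n : ℝ) + 1) ^ 2 / 2 ^ n * w n := mul_nonneg (by positivity) (hw n).le
    have h6 : M * (c0 * (((n : ℝ) + 1) ^ 2 / 2 ^ n * w n))
        ≤ M * ((c0 + 1) * (((n : ℝ) + 1) ^ 2 / 2 ^ n * w n)) :=
      mul_le_mul_of_nonneg_left (mul_le_mul_of_nonneg_right (by linarith) hpos) hM
    exact pow_le_pow_left₀ (mul_nonneg hM (mul_nonneg hc0n hpos)) h6 2
  have hser := fun i => ser hMIN (fun n x => ka N n * (p n * D n x i + q n * E n x i))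
    (fun n => (c0 + 1) * (((n : ℝ) + 1) ^ 2 / 2 ^ n * w n)) M hM
    (fun n => mul_pos (by linarith) (mul_pos (by positivity) (hw n))) (hs.mul_left _)
    (fun n => hMT n i) (fun n => hbd n i)
  have hF : M2 (fun x i => ∑' n, ka N n * (p n * D n x i + q n * E n x i)) :=
    fun i => (hser i).1
  refine ⟨hF, ?_, ?_⟩
  · rw [ip_eq_sum hF hF]
    have h1 : ∀ i ∈ (Finset.univ : Finset (Fin 3)),
        ∫ x in cube, (∑' n, ka N n * (p n * D n x i + q n * E n x i))
          * (∑' n, ka N n * (p n * D n x i + q n * E n x i))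
        ≤ (M * ((c0 + 1) * ∑' n : ℕ, ((n : ℝ) + 1) ^ 2 / 2 ^ n * w n)) ^ 2 := by
      intro i _
      have h2 := (hser i).2.1
      rw [tsum_mul_left] at h2
      refine le_trans (le_of_eq ?_) h2
      congr 1
      ext x
      ring
    refine (Finset.sum_le_sum h1).trans (le_of_eq ?_)
    simp
  · intro g hg
    rw [ip_eq_sum hg hF]
    have h1 : ∀ i ∈ (Finset.univ : Finset (Fin 3)),
        ∫ x in cube, g x i * (∑' n, ka N n * (p n * D n x i + q n * E n x i))
        = ∑' n, ∫ x in cube, g x i * (ka N n * (p n * D n x i + q n * E n x i)) :=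
      fun i _ => ((hser i).2.2 _ (hg i)).2
    rw [Finset.sum_congr rfl h1, ← Summable.tsum_finsetSum (fun i _ => ((hser i).2.2 _ (hg i)).1)]
    congr 1
    ext n
    have h2 : ∀ i ∈ (Finset.univ : Finset (Fin 3)),
        ∫ x in cube, g x i * (ka N n * (p n * D n x i + q n * E n x i))
        = ka N n * p n * (∫ x in cube, g x i * D n x i)
          + ka N n * q n * (∫ x in cube, g x i * E n x i) := by
      intro i _
      rw [← integral_const_mul, ← integral_const_mul,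
        ← integral_add ((int_comp hg (hD n) i).const_mul _) ((int_comp hg (hE n) i).const_mul _)]
      congr 1
      ext x
      ring
    rw [Finset.sum_congr rfl h2, Finset.sum_add_distrib, ← Finset.mul_sum, ← Finset.mul_sum,
      ← ip_eq_sum hg (hD n), ← ip_eq_sum hg (hE n)]
    ring

section

variable {N C : ℝ} (hE : EDB N C)

include hE

lemma M2_ee (n : ℕ) (h : V) : M2 (fun x => ee N n (x + h)) := by
  have := fin_cube
  intro i
  refine MemLp.of_bound (C := 1) ?_ ?_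
  · have h1 : Continuous (fun x => ee N n (x + h) i) :=
      (continuous_apply i).comp ((hE.smooth n).1.continuous.comp (continuous_id.add continuous_const))
    exact h1.aestronglyMeasurable
  · exact Eventually.of_forall fun x => (hE.bd n (x + h) i).1

lemma M2_dd (n : ℕ) (h : V) : M2 (fun x => dd N n (x + h)) := by
  have := fin_cube
  intro i
  refine MemLp.of_bound (C := C / 2 ^ n) ?_ ?_
  · have h1 : Continuous (fun x => dd N n (x + h) i) :=
      (continuous_apply i).comp ((hE.smooth n).2.continuous.comp (continuous_id.add continuous_const))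
    exact h1.aestronglyMeasurable
  · exact Eventually.of_forall fun x => (hE.bd n (x + h) i).2

lemma M2_ee0 (n : ℕ) : M2 (ee N n) := by
  have := M2_ee hE n 0
  simpa only [add_zero] using this

lemma M2_dd0 (n : ℕ) : M2 (dd N n) := by
  have := M2_dd hE n 0
  simpa only [add_zero] using this

end

lemma summ_poly {r : ℝ} (h0 : 0 ≤ r) (h1 : r < 1) :
    Summable (fun n : ℕ => ((n : ℝ) + 1) ^ 2 * r ^ n) := by
  rcases h0.eq_or_lt with rfl | h0
  · refine summable_of_ne_finset_zero (s := {0}) fun n hn => ?_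
    have : n ≠ 0 := by simpa using hn
    rw [zero_pow this, mul_zero]
  have h2 : Summable (fun n : ℕ => ((n : ℝ)) ^ 2 * r ^ n) :=
    summable_pow_mul_geometric_of_norm_lt_one 2 (by rwa [Real.norm_eq_abs, abs_of_pos h0])
  have h3 := (summable_nat_add_iff 1).2 h2
  have h4 := h3.mul_left r⁻¹
  refine h4.congr fun n => ?_
  push_cast
  rw [pow_succ]
  field_simp
  ring

lemma summ_two : Summable (fun n : ℕ => ((n : ℝ) + 1) ^ 2 / 2 ^ n * (1 : ℝ)) := by
  refine (summ_poly (r := 1 / 2) (by norm_num) (by norm_num)).congr fun n => ?_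
  rw [mul_one, one_div, inv_pow, div_eq_mul_inv]

/-- The terms of `BB N f` vanish from some point on. -/
lemma summ_fin (hFIN : S_FIN) {N C : ℝ} (hN : 198 ≤ N) (hE : EDB N C) (p q : ℕ → ℝ) (x : V)
    (i : Fin 3) : Summable (fun n => ka N n * (p n * dd N n x i + q n * ee N n x i)) := by
  obtain ⟨m, hm⟩ := hFIN N C hN hE x
  refine summable_of_ne_finset_zero (s := Finset.range m) fun n hn => ?_
  obtain ⟨h1, h2⟩ := hm n (by simpa using hn)
  rw [h1, h2]
  simp

lemma BB_apply (N : ℝ) (f : V → V) (x : V) (i : Fin 3) :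
    BB N f x i = ∑' n, ka N n * (ip f (ee N n) * dd N n x i + ip f (dd N n) * ee N n x i) := rfl

/-- The coefficients. -/
lemma coef {N C K : ℝ} (hE : EDB N C) {f : V → V} (hf : M2 f)
    (hK : ∀ n : ℕ, ip (ee N n) (ee N n) ≤ K ^ 2 / 4 ^ n ∧ ip (dd N n) (dd N n) ≤ K ^ 2 / 16 ^ n)
    (n : ℕ) : ip f (ee N n) ^ 2 ≤ √(ip f f) ^ 2 * (K ^ 2 / 4 ^ n) ∧
      ip f (dd N n) ^ 2 ≤ √(ip f f) ^ 2 * (K ^ 2 / 16 ^ n) := by
  rw [Real.sq_sqrt (ip_nonneg f)]
  exact ⟨(cs hf (M2_ee0 hE n)).trans (mul_le_mul_of_nonneg_left (hK n).1 (ip_nonneg f)),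
    (cs hf (M2_dd0 hE n)).trans (mul_le_mul_of_nonneg_left (hK n).2 (ip_nonneg f))⟩

/-- Job 23. -/
theorem bl2 (hEDI : S_EDI) (hMIN : S_MIN) (hFIN : S_FIN) : S_BL2 := by
  intro N C hN hE
  obtain ⟨K, hK0, hK⟩ := hEDI N C hN hE
  have hK' := fun n => (⟨(hK n).1, (hK n).2.1⟩ : _ ∧ _)
  have key := fun (f : V → V) (hf : M2 f) =>
    gen hMIN (N := N) (K := K) (M := √(ip f f)) (by linarith) (Real.sqrt_nonneg _)
      (fun n => ip f (ee N n)) (fun n => ip f (dd N n)) (dd N) (ee N) (fun _ => 1)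
      (fun _ => one_pos) summ_two (M2_dd0 hE) (M2_ee0 hE) (fun n => (coef hE hf hK' n).1)
      (fun n => (coef hE hf hK' n).2) (fun n => by simpa using (hK n).2.1)
      (fun n => by simpa using (hK n).1)
  refine ⟨fun f hf => ⟨?_, (key f hf.mem).1⟩, ?_, ?_, ?_, ?_⟩
  · intro j x
    ext i
    rw [BB_apply, BB_apply]
    congr 1
    ext n
    rw [(hE.per n).1 j x, (hE.per n).2 j x]
  · intro f g hf hg
    ext x i
    show BB N (fun x => f x + g x) x i = BB N f x i + BB N g x i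
    rw [BB_apply, BB_apply, BB_apply,
      ← (summ_fin hFIN hN hE _ _ x i).tsum_add (summ_fin hFIN hN hE _ _ x i)]
    congr 1
    ext n
    rw [add_ip hf.mem hg.mem (M2_ee0 hE n), add_ip hf.mem hg.mem (M2_dd0 hE n)]
    ring
  · intro c f hf
    ext x i
    show BB N (fun x => c • f x) x i = c * BB N f x i
    rw [BB_apply, BB_apply, ← tsum_mul_left]
    congr 1
    ext n
    rw [smul_ip, smul_ip]
    ring
  · intro f g hf hg
    have h1 := (key g hg.mem).2.2 f hf.mem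
    have h2 := (key f hf.mem).2.2 g hg.mem
    rw [ip_comm (BB N f) g]
    refine h1.trans (Eq.trans ?_ h2.symm)
    congr 1
    ext n
    ring
  · refine ⟨2 * ((2 * N * K ^ 2 / |ca| + 1) *
      ∑' n : ℕ, ((n : ℝ) + 1) ^ 2 / 2 ^ n * (1 : ℝ)), ?_, fun f hf => ?_⟩
    · have h1 : 0 < ∑' n : ℕ, ((n : ℝ) + 1) ^ 2 / 2 ^ n * (1 : ℝ) :=
        summ_two.tsum_pos (fun n => by positivity) 0 (by norm_num)
      have hN' : 0 ≤ N := by linarith
      positivity
    · refine (key f hf.mem).2.1.trans ?_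
      rw [mul_pow (√(ip f f)), Real.sq_sqrt (ip_nonneg f)]
      nlinarith [mul_nonneg (ip_nonneg f) (sq_nonneg ((2 * N * K ^ 2 / |ca| + 1) *
        ∑' n : ℕ, ((n : ℝ) + 1) ^ 2 / 2 ^ n * (1 : ℝ)))]

/-- The estimate for the differences, with any weights `w n ≥ min 1 (2 ^ n ‖h‖)`. -/
theorem diff_est (hMIN : S_MIN) (hFIN : S_FIN) {N C K : ℝ} (hN : 198 ≤ N) (hE : EDB N C)
    (hK : ∀ n : ℕ,
      ip (ee N n) (ee N n) ≤ K ^ 2 / 4 ^ n ∧ ip (dd N n) (dd N n) ≤ K ^ 2 / 16 ^ n ∧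
      ∀ h : V, ip (fun x => ee N n (x + h) - ee N n x) (fun x => ee N n (x + h) - ee N n x)
          ≤ K ^ 2 / 4 ^ n * min 1 (4 ^ n * ‖h‖ ^ 2) ∧
        ip (fun x => dd N n (x + h) - dd N n x) (fun x => dd N n (x + h) - dd N n x)
          ≤ K ^ 2 / 16 ^ n * min 1 (4 ^ n * ‖h‖ ^ 2))
    (h : V) (w : ℕ → ℝ) (hw : ∀ n, 0 < w n) (hw' : ∀ n, min 1 (4 ^ n * ‖h‖ ^ 2) ≤ w n ^ 2)
    (hs : Summable (fun n : ℕ => ((n : ℝ) + 1) ^ 2 / 2 ^ n * w n)) {f : V → V} (hf : M2 f) :
    ip (fun x => BB N f (x + h) - BB N f x) (fun x => BB N f (x + h) - BB N f x)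
      ≤ (2 * ((2 * N * K ^ 2 / |ca| + 1) * ∑' n : ℕ, ((n : ℝ) + 1) ^ 2 / 2 ^ n * w n)) ^ 2
        * ip f f := by
  have hK' := fun n => (⟨(hK n).1, (hK n).2.1⟩ : _ ∧ _)
  have h1 := gen hMIN (N := N) (K := K) (M := √(ip f f)) (by linarith) (Real.sqrt_nonneg _)
      (fun n => ip f (ee N n)) (fun n => ip f (dd N n))
      (fun n x => dd N n (x + h) - dd N n x) (fun n x => ee N n (x + h) - ee N n x) w hw hs
      (fun n => (M2_dd hE n h).sub (M2_dd0 hE n)) (fun n => (M2_ee hE n h).sub (M2_ee0 hE n))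
      (fun n => (coef hE hf hK' n).1) (fun n => (coef hE hf hK' n).2)
      (fun n => ((hK n).2.2 h).2.trans (mul_le_mul_of_nonneg_left (hw' n) (by positivity)))
      (fun n => ((hK n).2.2 h).1.trans (mul_le_mul_of_nonneg_left (hw' n) (by positivity)))
  have h2 : (fun x => BB N f (x + h) - BB N f x) = fun x i => ∑' n, ka N n *
      (ip f (ee N n) * (dd N n (x + h) - dd N n x) i
        + ip f (dd N n) * (ee N n (x + h) - ee N n x) i) := by
    ext x i
    show BB N f (x + h) i - BB N f x i = _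
    rw [BB_apply, BB_apply,
      ← (summ_fin hFIN hN hE _ _ (x + h) i).tsum_sub (summ_fin hFIN hN hE _ _ x i)]
    congr 1
    ext n
    rw [Pi.sub_apply, Pi.sub_apply]
    ring
  rw [h2]
  refine h1.2.1.trans ?_
  rw [mul_pow (√(ip f f)), Real.sq_sqrt (ip_nonneg f)]
  nlinarith [mul_nonneg (ip_nonneg f) (sq_nonneg ((2 * N * K ^ 2 / |ca| + 1) *
    ∑' n : ℕ, ((n : ℝ) + 1) ^ 2 / 2 ^ n * w n))]

/-- Job 24. -/
theorem bgn (hEDI : S_EDI) (hMIN : S_MIN) (hFIN : S_FIN) : S_BGN := by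
  intro N C hN hE γ hγ hγ1
  obtain ⟨K, hK0, hK⟩ := hEDI N C hN hE
  have hr1 : (2 : ℝ) ^ (γ - 1) < 1 := Real.rpow_lt_one_of_one_lt_of_neg (by norm_num) (by linarith)
  have hr0 : (0 : ℝ) < 2 ^ (γ - 1) := by positivity
  have hS := summ_poly hr0.le hr1
  have hN' : 0 ≤ N := by linarith
  have hSp : 0 < ∑' n : ℕ, ((n : ℝ) + 1) ^ 2 * ((2 : ℝ) ^ (γ - 1)) ^ n :=
    hS.tsum_pos (fun n => by positivity) 0 (by norm_num)
  refine ⟨2 * ((2 * N * K ^ 2 / |ca| + 1) *
    ∑' n : ℕ, ((n : ℝ) + 1) ^ 2 * ((2 : ℝ) ^ (γ - 1)) ^ n), by positivity, fun f hf h => ?_⟩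
  rcases eq_or_ne h 0 with rfl | hh
  · have h0 : (fun x => BB N f (x + 0) - BB N f x) = fun _ => (0 : V) := by
      ext x i
      simp
    rw [h0]
    have h1 : ip (fun _ => (0 : V)) (fun _ => (0 : V)) = 0 := by
      unfold ip
      simp
    rw [h1]
    exact mul_nonneg (sq_nonneg _) (ip_nonneg f)
  have hn : 0 < ‖h‖ := norm_pos_iff.2 hh
  have hterm : ∀ n : ℕ, ((n : ℝ) + 1) ^ 2 / 2 ^ n * ((2 : ℝ) ^ n * ‖h‖) ^ γ
      = ‖h‖ ^ γ * (((n : ℝ) + 1) ^ 2 * ((2 : ℝ) ^ (γ - 1)) ^ n) := by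
    intro n
    have e1 : ((2 : ℝ) ^ n * ‖h‖) ^ γ = ((2 : ℝ) ^ n) ^ γ * ‖h‖ ^ γ :=
      Real.mul_rpow (by positivity) hn.le
    have e2 : ((2 : ℝ) ^ (γ - 1)) ^ n = ((2 : ℝ) ^ n) ^ γ / 2 ^ n := by
      rw [← Real.rpow_natCast (2 : ℝ) n, ← Real.rpow_mul (by norm_num), ← Real.rpow_natCast,
        ← Real.rpow_mul (by norm_num), ← Real.rpow_sub (by norm_num)]
      congr 1
      ring
    rw [e1, e2]
    ring
  have h1 := diff_est hMIN hFIN hN hE hK h (fun n => ((2 : ℝ) ^ n * ‖h‖) ^ γ)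
    (fun n => by positivity) (fun n => ?_) ?_ hf.mem
  · rw [tsum_congr hterm, tsum_mul_left] at h1
    refine h1.trans (le_of_eq ?_)
    ring
  · have e1 : (4 : ℝ) ^ n * ‖h‖ ^ 2 = ((2 : ℝ) ^ n * ‖h‖) ^ 2 := by
      rw [mul_pow, ← pow_mul, mul_comm n 2, pow_mul]
      norm_num
    rw [e1]
    set t : ℝ := (2 : ℝ) ^ n * ‖h‖ with ht
    have ht0 : 0 < t := by positivity
    rcases le_total t 1 with h2 | h2
    · refine (min_le_right _ _).trans (pow_le_pow_left₀ ht0.le ?_ 2)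
      calc t = t ^ (1 : ℝ) := (Real.rpow_one t).symm
        _ ≤ t ^ γ := Real.rpow_le_rpow_of_exponent_ge ht0 h2 hγ1.le
    · refine (min_le_left _ _).trans ?_
      exact one_le_pow₀ (Real.one_le_rpow h2 hγ.le)
  · exact (hS.mul_left (‖h‖ ^ γ)).congr fun n => (hterm n).symm

end

end Pool.Agent.Q208.SP
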